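import Mathlib

/-!
# The interface to the theorem of Feit and Thompson for large primes

`ERk r G`: elementary abelian sections of the subgroups of prime power order of `G` have rank at
most `r` (stated for quotients `K / L` of `p`-subgroups `K`).
`FTr r`: there is `n` such that every finite group `G` with `ERk r G` and order prime to all primes
`p ≤ n` is soluble.
-/

set_option autoImplicit false

universe u

namespace H12.FR

open scoped commutatorElement

/-- elementary abelian quotients of subgroups of prime power order have rank at most `r` -/
def ERk (r : ℕ) (G : Type*) [Group G] : Prop :=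
  ∀ p : ℕ, p.Prime → ∀ K : Subgroup G, IsPGroup p K → ∀ L : Subgroup K,
    (∀ x y : K, ⁅x, y⁆ ∈ L) → (∀ x : K, x ^ p ∈ L) → L.index ≤ p ^ r

/-- groups of bounded rank, of order prime to all small primes, are soluble -/
def FTr (r : ℕ) : Prop :=
  ∃ n : ℕ, ∀ (G : Type u) [Group G] [Finite G],
    (∀ p : ℕ, p.Prime → p ≤ n → ¬ p ∣ Nat.card G) → ERk r G → Group.IsSolvable G

end H12.FR
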