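import Pool.Agent.H12.RK.Syl
import Pool.Agent.H12.FR.Defs
import Pool.Agent.H12.TG.Main

/-!
# Soluble images in all finite quotients, from `FTr`

`tf_sol'`: `U ≤ A B J` for all normal `J` of finite index, `A`, `B` almost polycyclic: under `FTr`
there is a normal subgroup `X₁ ≤ U` of finite index whose images in all finite quotients of `X` are
soluble. `x_main'`: `TG.x_main` under `FTr`.
-/

set_option autoImplicit false

universe u

namespace H12.FR

open Subgroup H36.PP H36.PQ H12.TF H12.TG H12.RK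
open scoped commutatorElement

/-- the chief factors have bounded rank -/
theorem chief_erk {X : Type u} [Group X] (U A B : Subgroup X) (hU : U.Normal) {h k r M n : ℕ}
    (hbg : ∀ A' : Subgroup A, BG A' h) (hbk : ∀ B' : Subgroup B, BG B' k) (hB : FRk B r)
    (hM : ∀ p m : ℕ, 2 ≤ p → p ^ m ≤ (p * (m + 1)) ^ h → m ≤ M)
    (hcov : ∀ J : Subgroup X, J.Normal → J.FiniteIndex → ∀ u ∈ U, ∃ x ∈ A, ∃ y ∈ B, ∃ j ∈ J,
      u = x * y * j) (hn2 : 2 ≤ n) (hnM : M + r ≤ n) (N L : Subgroup X) [N.Normal]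
    (hNf : N.FiniteIndex) (hLU : L ≤ U) [(N.subgroupOf L).Normal]
    (hp : ∀ p : ℕ, p.Prime → p ≤ n → ¬ p ∣ N.relIndex L) :
    ERk (h + k + (M + r)) (L ⧸ N.subgroupOf L) := by
  intro p hpp K hK
  have hfp : _root_.Fact p.Prime := ⟨hpp⟩
  have hfin : Finite (L ⧸ N.subgroupOf L) := inferInstance
  by_cases hpn : p ≤ n
  · -- `K` is trivial
    intro L' _ _
    have h1 : Nat.card K = 1 := by
      obtain ⟨m, hm⟩ := IsPGroup.iff_card.1 hK
      rcases Nat.eq_zero_or_pos m with h0 | h0
      · rw [hm, h0, pow_zero]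
      · exfalso
        apply hp p hpp hpn
        have h2 : Nat.card K ∣ Nat.card (L ⧸ N.subgroupOf L) := Subgroup.card_subgroup_dvd_card K
        rw [hm] at h2
        exact (dvd_pow_self p h0.ne').trans h2
    have h2 : L'.index ∣ Nat.card K := index_dvd_card L'
    rw [h1, Nat.dvd_one] at h2
    rw [h2]
    exact Nat.one_le_pow _ _ hpp.pos
  · push Not at hpn
    let g : L ⧸ N.subgroupOf L →* X ⧸ N :=
      QuotientGroup.map _ _ L.subtype (fun x hx => mem_subgroupOf.1 hx)
    have hg : Function.Injective g := by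
      rw [injective_iff_map_eq_one]
      intro x hx
      obtain ⟨x, rfl⟩ := QuotientGroup.mk_surjective x
      have h1 : (x : X) ∈ N := (QuotientGroup.eq_one_iff (x : X)).1 hx
      exact (QuotientGroup.eq_one_iff x).2 (mem_subgroupOf.2 h1)
    exact syl_rk U A B hU hbg hbk hB hM hcov N hNf hpp (by omega) (by omega) K hK
      (g.comp K.subtype) (hg.comp K.subtype_injective) (by
        rintro _ ⟨x, rfl⟩
        obtain ⟨y, hy⟩ := QuotientGroup.mk_surjective (x : L ⧸ N.subgroupOf L)
        refine ⟨(y : X), hLU y.2, ?_⟩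
        show _ = g (x : L ⧸ N.subgroupOf L)
        rw [← hy]
        rfl)

theorem tf_sol' {X : Type u} [Group X] (hFT : ∀ r, FTr.{u} r) {U : Subgroup X} (hU : U.Normal)
    (hUf : U.FiniteIndex) (A B : Subgroup X) (hA : AP A) (hB : AP B) (hcov : Cov U A B) :
    ∃ X₁ : Subgroup X, X₁.Normal ∧ X₁.FiniteIndex ∧ X₁ ≤ U ∧
      ∀ (J : Subgroup X) [J.Normal], J.FiniteIndex →
        Group.IsSolvable (X₁.map (QuotientGroup.mk' J)) := by
  obtain ⟨a, ha⟩ := hA.frk
  obtain ⟨r, hr⟩ := hB.frk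
  obtain ⟨h, hh⟩ := bg_ap hA
  obtain ⟨k, hk⟩ := bg_ap hB
  have hbg : ∀ K : Subgroup A, BG K h := fun K => R3_SB_BG K (hh K)
  have hbk : ∀ K : Subgroup B, BG K k := fun K => R3_SB_BG K (hk K)
  obtain ⟨M, hM⟩ := r1_num h
  obtain ⟨n₀, hn₀⟩ := hFT (h + k + (M + r))
  have hd := TF.syl_of_cover U A B hU ha hr hcov
  set n := max n₀ (max 2 (M + r)) with hn
  obtain ⟨X₁, hX₁, hX₁f, hX₁U, hbad⟩ := tf_main hU hUf hd n
  refine ⟨X₁, hX₁, hX₁f, hX₁U, fun J hJ hJf => ?_⟩
  have key : ∀ (m : ℕ) (N : Subgroup X), N.Normal → N.FiniteIndex → N ≤ X₁ →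
      N.relIndex X₁ ≤ m → ∀ [(N.subgroupOf X₁).Normal], Group.IsSolvable (X₁ ⧸ N.subgroupOf X₁) := by
    intro m
    induction m with
    | zero =>
      intro N hN hNf _ hm
      exfalso
      have h1 : N.relIndex X₁ ≠ 0 := (inferInstance : (N.subgroupOf X₁).FiniteIndex).index_ne_zero
      omega
    | succ m ih =>
      intro N hN hNf hNX hm hNn
      have hfin : N.relIndex X₁ ≠ 0 := (inferInstance : (N.subgroupOf X₁).FiniteIndex).index_ne_zero
      by_cases heq : N = X₁
      · have h1 : N.subgroupOf X₁ = ⊤ := by rw [subgroupOf_eq_top, heq]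
        have h2 : Subsingleton (X₁ ⧸ N.subgroupOf X₁) := by
          rw [QuotientGroup.subsingleton_iff]; exact h1
        exact Group.isSolvable_of_comm fun a b => Subsingleton.elim _ _
      obtain ⟨L, hLX, hch⟩ := exists_chief hX₁ hN (lt_of_le_of_ne hNX heq) hfin
      have hL := hch.hn
      have hLf : L.FiniteIndex := finiteIndex_of_le hch.lt.le
      have hLn : (L.subgroupOf X₁).Normal := Normal.subgroupOf hL X₁
      have hNLn : (N.subgroupOf L).Normal := Normal.subgroupOf hN L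
      have h1 : Group.IsSolvable (X₁ ⧸ L.subgroupOf X₁) := by
        refine ih L hL hLf hLX ?_
        have h2 := relIndex_mul_relIndex N L X₁ hch.lt.le hLX
        have h3 : N.relIndex L ≠ 1 := fun h => absurd (relIndex_eq_one.1 h) (not_le_of_gt hch.lt)
        have h4 : N.relIndex L ≠ 0 := by
          intro h
          rw [h, zero_mul] at h2
          exact hfin h2.symm
        have h5 : L.relIndex X₁ ≠ 0 := by
          intro h
          rw [h, mul_zero] at h2
          exact hfin h2.symm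
        have h6 : 2 * L.relIndex X₁ ≤ N.relIndex L * L.relIndex X₁ :=
          Nat.mul_le_mul_right _ (by omega)
        omega
      have hfL : Finite (L ⧸ N.subgroupOf L) := inferInstance
      have h2 : Group.IsSolvable (L ⧸ N.subgroupOf L) := by
        by_cases hab : ∀ x ∈ L, ∀ y ∈ L, ⁅x, y⁆ ∈ N
        · apply Group.isSolvable_of_comm
          intro a b
          obtain ⟨a, rfl⟩ := QuotientGroup.mk_surjective a
          obtain ⟨b, rfl⟩ := QuotientGroup.mk_surjective b
          rw [← commutatorElement_eq_one_iff_mul_comm]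
          have h3 : ((⁅a, b⁆ : L) : L ⧸ N.subgroupOf L) = 1 :=
            (QuotientGroup.eq_one_iff _).2 (mem_subgroupOf.2 (hab a a.2 b b.2))
          exact h3
        · have hbp := hbad N L hNf hLX hch hab
          refine hn₀ (L ⧸ N.subgroupOf L) (fun p hp hpn => ?_) ?_
          · exact hbp p hp (hpn.trans (le_max_left _ _))
          · exact chief_erk U A B hU hbg hbk hr hM hcov
              ((le_max_left _ _).trans (le_max_right _ _))
              ((le_max_right _ _).trans (le_max_right _ _)) N L hNf (hLX.trans hX₁U) hbp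
      let f : L ⧸ N.subgroupOf L →* X₁ ⧸ N.subgroupOf X₁ :=
        QuotientGroup.map _ _ (Subgroup.inclusion hLX) (fun x hx => by
          rw [mem_comap, mem_subgroupOf]
          exact mem_subgroupOf.1 hx)
      let g : X₁ ⧸ N.subgroupOf X₁ →* X₁ ⧸ L.subgroupOf X₁ :=
        QuotientGroup.map _ _ (MonoidHom.id X₁) (fun x hx => by
          rw [mem_comap, mem_subgroupOf]
          exact hch.lt.le (mem_subgroupOf.1 hx))
      refine Group.isSolvable_of_ker_le_range f g ?_
      intro y hy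
      obtain ⟨x, rfl⟩ := QuotientGroup.mk_surjective y
      rw [MonoidHom.mem_ker] at hy
      have h3 : x ∈ L.subgroupOf X₁ := (QuotientGroup.eq_one_iff x).1 hy
      exact ⟨((⟨(x : X), mem_subgroupOf.1 h3⟩ : L) : L ⧸ N.subgroupOf L), rfl⟩
  have hN : (J ⊓ X₁).Normal := inferInstance
  have hNn : ((J ⊓ X₁).subgroupOf X₁).Normal := Normal.subgroupOf hN X₁
  have h1 := key ((J ⊓ X₁).relIndex X₁) (J ⊓ X₁) hN inferInstance inf_le_right le_rfl
  let r : X₁ →* X₁.map (QuotientGroup.mk' J) := (QuotientGroup.mk' J).subgroupMap X₁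
  have hr : Function.Surjective r := (QuotientGroup.mk' J).subgroupMap_surjective X₁
  let F : X₁ ⧸ (J ⊓ X₁).subgroupOf X₁ →* X₁.map (QuotientGroup.mk' J) :=
    QuotientGroup.lift _ r (fun x hx => by
      refine Subtype.ext ?_
      show ((x : X) : X ⧸ J) = 1
      exact (QuotientGroup.eq_one_iff _).2 (mem_inf.1 (mem_subgroupOf.1 hx)).1)
  refine Group.isSolvable_of_surjective (f := F) ?_
  intro y
  obtain ⟨x, rfl⟩ := hr y
  exact ⟨(x : X₁ ⧸ (J ⊓ X₁).subgroupOf X₁), rfl⟩

/-- the final step, for finite unions of double cosets -/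
theorem x_main' (hFT : ∀ r, FTr.{u} r) {X : Type u} [Group X] (A B : Subgroup X) (hA : AP A)
    (hB : AP B) (F : Finset X)
    (hF : ∀ g : X, ∃ a ∈ A, ∃ f ∈ F, ∃ b ∈ B, g = a * f * b) (hfg : Group.FG X) (hrf : RF X)
    (hq : ∀ (N : Subgroup X) [N.Normal], N ≠ ⊥ → AP (X ⧸ N)) (N₀ : Subgroup X) [N₀.Normal]
    (hinf : Infinite N₀) (hN : N₀.FG) (hno : NoVZ N₀) : False := by
  obtain ⟨f, -, U, hU, hUf, hcov⟩ := x3_cover F hF
  have hB' : AP (cj f B) := ap_cj hB f
  have hrfL : ∀ (L : Subgroup X) [L.Normal], RF (X ⧸ L) := by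
    intro L hL
    by_cases hLb : L = ⊥
    · subst hLb
      intro g hg
      obtain ⟨x, rfl⟩ := QuotientGroup.mk_surjective g
      have hx : x ≠ 1 := by
        rintro rfl
        exact hg rfl
      obtain ⟨N, hNn, hNf, hxN⟩ := hrf x hx
      refine ⟨N.map (QuotientGroup.mk' ⊥), hNn.map _ (QuotientGroup.mk'_surjective _), ?_, ?_⟩
      · refine ⟨?_⟩
        have h1 : (N.map (QuotientGroup.mk' (⊥ : Subgroup X))).comap (QuotientGroup.mk' ⊥) = N := by
          rw [comap_map_eq, QuotientGroup.ker_mk', sup_bot_eq]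
        rw [← index_comap_of_surjective _ (QuotientGroup.mk'_surjective (⊥ : Subgroup X)), h1]
        exact hNf.index_ne_zero
      · rintro ⟨y, hy, hyx⟩
        apply hxN
        have h1 : y⁻¹ * x ∈ (⊥ : Subgroup X) := QuotientGroup.eq.1 hyx
        rw [mem_bot, inv_mul_eq_one] at h1
        rwa [← h1]
    · exact (hq L hLb).rf
  obtain ⟨R, hR⟩ := secU_of_cov A (cj f B) U hA hB' hrfL hcov
  obtain ⟨X₁, hX₁, hX₁f, hX₁U, hsol⟩ := tf_sol' hFT hU hUf A (cj f B) hA hB' hcov
  exact x5_main hfg hrf hq N₀ hinf hN hno hR hX₁ hX₁f hX₁U hsol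

end H12.FR
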