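import Pool.Agent.H12.FR.Red
import Pool.Agent.H36.PD.Main

/-!
# Products of two almost polycyclic groups, from `FTr`

`main_ftr`: a locally graded group which is a finite union of double cosets of two almost
polycyclic subgroups is almost polycyclic, under `FTr r` for all `r`.
`s03413_of`: the frozen statement, under `FTr r` for all `r`.
-/

set_option autoImplicit false

universe u

namespace H12.FR

open Subgroup H36.PP H84.PG H12.TG

theorem main_ftr (hFT : ∀ r, FTr.{u} r) {G : Type u} [Group G] (hLG : LG G) (A B : Subgroup G)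
    (hA : AP A) (hB : AP B) (hdc : DC ⊤ A B) : AP G :=
  red_main' H36.PD.minHyp hFT hLG A B hA hB hdc

theorem ap_of_frozen {G : Type u} [Group G] {A : Subgroup G}
    (h : (∀ K : Subgroup G, K ≤ A → K.FG) ∧
      ∃ S : Subgroup G, S ≤ A ∧ Group.IsSolvable S ∧ (S.subgroupOf A).FiniteIndex) : AP A := by
  obtain ⟨h1, S, hSA, hS, hSf⟩ := h
  refine ap_iff.2 ⟨fun K => ?_, S.subgroupOf A, ?_, hSf⟩
  · have h2 := h1 (K.map A.subtype) (map_subtype_le K)
    have h3 : Group.FG (K.map A.subtype) := (Group.fg_iff_subgroup_fg _).2 h2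
    have h4 : Group.FG K := Group.fg_of_surjective
      (f := (K.equivMapOfInjective A.subtype A.subtype_injective).symm.toMonoidHom)
      (K.equivMapOfInjective A.subtype A.subtype_injective).symm.surjective
    exact (Group.fg_iff_subgroup_fg K).1 h4
  · exact Group.isSolvable_of_isSolvable_injective (f := (subgroupOfEquivOfLe hSA).toMonoidHom)
      (subgroupOfEquivOfLe hSA).injective

theorem s03413_of (hFT : ∀ r, FTr.{u} r) (G : Type u) [Group G]
    (hLG : ∀ H : Subgroup G, H.FG → H ≠ ⊥ → ∃ N : Subgroup H, N.Normal ∧ N ≠ ⊤ ∧ N.FiniteIndex)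
    (A B : Subgroup G)
    (hA : (∀ K : Subgroup G, K ≤ A → K.FG) ∧
      ∃ S : Subgroup G, S ≤ A ∧ Group.IsSolvable S ∧ (S.subgroupOf A).FiniteIndex)
    (hB : (∀ K : Subgroup G, K ≤ B → K.FG) ∧
      ∃ S : Subgroup G, S ≤ B ∧ Group.IsSolvable S ∧ (S.subgroupOf B).FiniteIndex)
    (hAB : ∀ g : G, ∃ a ∈ A, ∃ b ∈ B, g = a * b) :
    (∀ K : Subgroup G, K.FG) ∧ ∃ S : Subgroup G, Group.IsSolvable S ∧ S.FiniteIndex :=
  ap_iff.1 (main_ftr hFT (fun H h1 h2 => hLG H h1 h2) A B (ap_of_frozen hA) (ap_of_frozen hB)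
    (dc_of_fact hAB))

end H12.FR
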